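import Pool.Agent.helper59.FI.SpecB

set_option autoImplicit false

namespace Pool.Agent.FI

open Pool.Agent.helper58.DC Pool.Agent.DI Pool.Agent.GR Pool.Agent.OB

theorem FWV (hC4 : C4_stmt) : FWV_stmt := by
  classical
  intro G _ _ C η hη f hf w hw
  set d : G → ℂ := fun x => if x = w then 1 else 0 with hd
  have h1 : (fun x => f (x * w⁻¹)) = cv f d := by
    funext g
    unfold cv
    rw [finsum_eq_single _ (g * w⁻¹)]
    · simp [hd]
    · intro x hx
      have h2 : x⁻¹ * g ≠ w := by
        intro h
        apply hx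
        rw [← h]
        group
      simp [hd, h2]
  have h2 : cc η d = η w / η 1 := by
    unfold cc
    congr 1
    rw [finsum_eq_single _ w]
    · simp [hd]
    · intro x hx
      simp [hd, hx]
  rw [h1, (hC4 G).1 C η hη f d hf.1 hf.2, h2]
  intro x hx
  have h3 : x ≠ w := fun h => hx (h ▸ hw)
  simp [hd, h3]

end Pool.Agent.FI
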