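import Pool.Agent.helper1.FI.SpecQ2

/-!
# Row `fib:QAV` (MP_baa4d7_al)

Averages over cosets.
-/

set_option autoImplicit false

namespace Pool.Agent.FI

open Pool.Agent.helper58.DC Pool.Agent.DI Pool.Agent.GR Pool.Agent.OB

theorem QAV_bij {T : Type} [Group T] (C : Subgroup T) :
    Function.Bijective (fun x : (T ⧸ C) × C => (x.1.out : T) * (x.2 : T)) := by
  constructor
  · rintro ⟨q, c⟩ ⟨q', c'⟩ h
    simp only at h
    have h1 : (QuotientGroup.mk (q.out * (c : T)) : T ⧸ C) = QuotientGroup.mk (q'.out * (c' : T)) := by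
      rw [h]
    rw [QuotientGroup.mk_mul_of_mem _ c.2, QuotientGroup.mk_mul_of_mem _ c'.2,
      QuotientGroup.out_eq', QuotientGroup.out_eq'] at h1
    subst h1
    have h2 : (c : T) = c' := mul_left_cancel h
    rw [Prod.mk.injEq]
    exact ⟨rfl, Subtype.ext h2⟩
  · intro t
    have h1 : (Quotient.out (QuotientGroup.mk t : T ⧸ C))⁻¹ * t ∈ C := by
      rw [← QuotientGroup.eq, QuotientGroup.out_eq']
    exact ⟨(QuotientGroup.mk t, ⟨_, h1⟩), by simp⟩

theorem QAV_sum {G : Type} [Group G] [Finite G] (C T : Subgroup G) (hCT : C ≤ T) (F : G → ℂ)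
    (hF : ∀ t ∈ T, ∀ c ∈ C, F (t * c) = F t) :
    (∑ᶠ t ∈ (T : Set G), F t) =
      (Nat.card C : ℂ) * ∑ᶠ q : T ⧸ C.subgroupOf T, F ((q.out : T) : G) := by
  classical
  have : Fintype G := Fintype.ofFinite G
  have : Fintype T := Fintype.ofFinite T
  have : Fintype (C.subgroupOf T) := Fintype.ofFinite _
  have : Fintype (T ⧸ C.subgroupOf T) := Fintype.ofFinite _
  have h1 : (∑ᶠ t ∈ (T : Set G), F t) = ∑ t : T, F (t : G) := by
    rw [← finsum_set_coe_eq_finsum_mem]
    exact finsum_eq_sum_of_fintype _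
  have h2 : ∑ t : T, F (t : G) =
      ∑ x : (T ⧸ C.subgroupOf T) × C.subgroupOf T, F (((x.1.out : T) * (x.2 : T) : T) : G) :=
    ((QAV_bij (C.subgroupOf T)).sum_comp (fun t : T => F (t : G))).symm
  have h3 : ∀ x : (T ⧸ C.subgroupOf T) × C.subgroupOf T,
      F (((x.1.out : T) * (x.2 : T) : T) : G) = F ((x.1.out : T) : G) := by
    intro x
    have := x.2.2
    rw [Subgroup.mem_subgroupOf] at this
    exact hF _ (x.1.out : T).2 _ this
  have h4 : Fintype.card (C.subgroupOf T) = Nat.card C := by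
    rw [← Nat.card_eq_fintype_card]
    exact Nat.card_congr (Subgroup.subgroupOfEquivOfLe hCT).toEquiv
  rw [h1, h2, finsum_eq_sum_of_fintype, Finset.mul_sum, Fintype.sum_prod_type]
  refine Finset.sum_congr rfl fun q _ => ?_
  have h5 : ∀ c ∈ (Finset.univ : Finset (C.subgroupOf T)),
      F ((((q.out : T) * (c : T)) : T) : G) = F ((q.out : T) : G) := fun c _ => h3 (q, c)
  rw [Finset.sum_congr rfl h5]
  rw [Finset.sum_const, Finset.card_univ, h4, nsmul_eq_mul]

theorem QAV : QAV_stmt := by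
  intro p M h G _ _ C T hCT F hF
  have hs := QAV_sum C T hCT F hF
  have hc : (Nat.card C : ℂ) ≠ 0 := by exact_mod_cast Nat.card_pos.ne'
  have e1 : (∑ᶠ t ∈ (T : Set G), F t) / Nat.card C =
      ∑ᶠ q : T ⧸ C.subgroupOf T, F ((q.out : T) : G) := by
    rw [hs, mul_comm, mul_div_assoc, div_self hc, mul_one]
  have hT : (Nat.card T : ℂ) = Nat.card C * (C.relIndex T : ℂ) := by
    have := Subgroup.relIndex_mul_relIndex (⊥ : Subgroup G) C T bot_le hCT
    rw [Subgroup.relIndex_bot_left, Subgroup.relIndex_bot_left] at this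
    rw [← this]
    push_cast
    ring
  have e2 : (∑ᶠ t ∈ (T : Set G), F t) / Nat.card T =
      (C.relIndex T : ℂ)⁻¹ * ∑ᶠ q : T ⧸ C.subgroupOf T, F ((q.out : T) : G) := by
    rw [← e1, hT, div_mul_eq_div_div, div_eq_mul_inv, mul_comm]
  have hi : ¬ p ∣ C.relIndex T → IntAt M ((C.relIndex T : ℂ)⁻¹) := fun hp =>
    IntAt.inv h (IntAt.natCast h _) (fun hh => hp ((InM.natCast h _).1 hh))
  refine ⟨fun hF' => ?_, fun hF' => ?_, fun hp hF' => ?_, fun hp hF' => ?_⟩
  · rw [e1]
    exact IntAt.finsum h fun q => hF' _ (q.out : T).2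
  · rw [e1]
    exact InM.finsum h fun q => hF' _ (q.out : T).2
  · rw [e2]
    exact (hi hp).mul h (IntAt.finsum h fun q => hF' _ (q.out : T).2)
  · rw [e2]
    exact InM.mul_left h (hi hp) (InM.finsum h fun q => hF' _ (q.out : T).2)

end Pool.Agent.FI
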